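import Pool.Agent.H181R2.Final

set_option autoImplicit false

namespace Pool.Agent.Results.MP_dfb7ad_co.RMorphicTiles

/-- For every `r ≥ 9` that is not congruent to `2` modulo `3` there is a closed topological disk
in the plane admitting exactly `r` monohedral tilings, up to isometries of the plane. -/
theorem result :
    ∀ r : ℕ, 9 ≤ r → r % 3 ≠ 2 →
      ∃ T : Set (EuclideanSpace ℝ (Fin 2)),
        Nonempty (T ≃ₜ Metric.closedBall (0 : EuclideanSpace ℝ (Fin 2)) 1) ∧
        ∃ S : Fin r → Set (Set (EuclideanSpace ℝ (Fin 2))),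
          (∀ i : Fin r,
            (∀ A ∈ S i, ∃ g : EuclideanSpace ℝ (Fin 2) ≃ᵢ EuclideanSpace ℝ (Fin 2), A = g '' T) ∧
            (⋃₀ (S i)) = Set.univ ∧
            (∀ A ∈ S i, ∀ B ∈ S i, A ≠ B → Disjoint (interior A) (interior B))) ∧
          (∀ i j : Fin r, i ≠ j →
            ¬ ∃ g : EuclideanSpace ℝ (Fin 2) ≃ᵢ EuclideanSpace ℝ (Fin 2),
              Set.image (fun A : Set (EuclideanSpace ℝ (Fin 2)) => g '' A) (S i) = S j) ∧
          (∀ S' : Set (Set (EuclideanSpace ℝ (Fin 2))),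
            ((∀ A ∈ S', ∃ g : EuclideanSpace ℝ (Fin 2) ≃ᵢ EuclideanSpace ℝ (Fin 2), A = g '' T) ∧
              (⋃₀ S') = Set.univ ∧
              (∀ A ∈ S', ∀ B ∈ S', A ≠ B → Disjoint (interior A) (interior B))) →
            ∃ i : Fin r, ∃ g : EuclideanSpace ℝ (Fin 2) ≃ᵢ EuclideanSpace ℝ (Fin 2),
              Set.image (fun A : Set (EuclideanSpace ℝ (Fin 2)) => g '' A) (S i) = S') :=
  fun r hr h3 => Pool.Agent.H181R2.morphic_r r hr h3

end Pool.Agent.Results.MP_dfb7ad_co.RMorphicTiles
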